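import Pool.Agent.K1H25.JS.Stm

/-! # Tasks 59 and 60 of helper25 -/

set_option autoImplicit false

namespace Pool.Agent.K1H65.JS

open K1H25.JS

lemma E_spec {x : ℝ} (hx : 3 ≤ x) : 2.6 ≤ E x ∧ E x + (E x)⁻¹ = x := by
  have h1 : 0 ≤ x ^ 2 - 4 := by nlinarith
  have h2 : Real.sqrt (x ^ 2 - 4) ^ 2 = x ^ 2 - 4 := Real.sq_sqrt h1
  have h3 : 2.2 ≤ Real.sqrt (x ^ 2 - 4) := by
    apply Real.le_sqrt_of_sq_le
    nlinarith
  have h4 : 2.6 ≤ E x := by unfold E; linarith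
  refine ⟨h4, ?_⟩
  have h5 : E x * (x - E x) = 1 := by unfold E; nlinarith
  have h6 : (E x)⁻¹ = x - E x := inv_eq_of_mul_eq_one_right h5
  rw [h6]; ring

theorem t_LAM : S_LAM := by
  intro x y z hx hy heq hz
  have hz3 : 3 ≤ z := by nlinarith
  obtain ⟨hX, hX2⟩ := E_spec hx
  obtain ⟨hY, hY2⟩ := E_spec hy
  obtain ⟨hZ, hZ2⟩ := E_spec hz3
  set X := E x with hXd
  set Y := E y with hYd
  set Z := E z with hZd
  have hX0 : 0 < X := by linarith
  have hY0 : 0 < Y := by linarith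
  have hZ0 : 0 < Z := by linarith
  set u := X⁻¹ with hu
  set v := Y⁻¹ with hv
  have hu0 : 0 < u := inv_pos.2 hX0
  have hv0 : 0 < v := inv_pos.2 hY0
  have hXu : X * u = 1 := mul_inv_cancel₀ hX0.ne'
  have hYv : Y * v = 1 := mul_inv_cancel₀ hY0.ne'
  have hu1 : u ≤ 0.3847 := (inv_anti₀ (by norm_num) hX).trans (by norm_num)
  have hv1 : v ≤ 0.3847 := (inv_anti₀ (by norm_num) hY).trans (by norm_num)
  set P := X * Y with hP
  have hP0 : 6.76 ≤ P := by
    have := mul_le_mul hX hY (by norm_num) hX0.le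
    rw [hP]; linarith
  have hPpos : 0 < P := by linarith
  have hPuv : P * (u * v) = 1 := by
    calc P * (u * v) = (X * u) * (Y * v) := by rw [hP]; ring
      _ = 1 := by rw [hXu, hYv]; ring
  have hPinv : P⁻¹ = u * v := (inv_eq_of_mul_eq_one_right hPuv)
  -- s
  set s := (X - u) * (Y - v) with hs
  have hs0 : 0 < s := mul_pos (by linarith) (by linarith)
  set d := 2 * z - x * y with hd
  have hd0 : 0 ≤ d := by rw [hd]; linarith
  have hd2 : d ^ 2 = s ^ 2 + 4 := by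
    have h1 : (X - u) ^ 2 = x ^ 2 - 4 := by
      rw [← hX2]; linear_combination (-4 : ℝ) * hXu
    have h2 : (Y - v) ^ 2 = y ^ 2 - 4 := by
      rw [← hY2]; linear_combination (-4 : ℝ) * hYv
    have h3 : s ^ 2 = (x ^ 2 - 4) * (y ^ 2 - 4) := by rw [hs, mul_pow, h1, h2]
    rw [h3, hd]; linear_combination 4 * heq
  have hds : s < d := lt_of_pow_lt_pow_left₀ 2 hd0 (by rw [hd2]; linarith)
  have hds2 : d ≤ s + 2 * s⁻¹ := by
    have h1 : d ^ 2 ≤ (s + 2 * s⁻¹) ^ 2 := by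
      have h2 : (s + 2 * s⁻¹) ^ 2 = s ^ 2 + 4 + 4 * (s⁻¹) ^ 2 := by
        have : s * s⁻¹ = 1 := mul_inv_cancel₀ hs0.ne'
        linear_combination (4 : ℝ) * this
      rw [h2, hd2]
      have : 0 ≤ (s⁻¹) ^ 2 := sq_nonneg _
      linarith
    exact (abs_le_of_sq_le_sq' h1 (by positivity)).2
  have hsum : x * y + s = 2 * (P + P⁻¹) := by
    rw [hPinv, hs, hP, ← hX2, ← hY2]; ring
  have hz1 : P + P⁻¹ < Z + Z⁻¹ := by rw [hZ2]; linarith
  have hz2 : Z + Z⁻¹ ≤ P + P⁻¹ + s⁻¹ := by rw [hZ2]; linarith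
  have hZinv : Z * Z⁻¹ = 1 := mul_inv_cancel₀ hZ0.ne'
  have hPPinv : P * P⁻¹ = 1 := mul_inv_cancel₀ hPpos.ne'
  have hfac : Z + Z⁻¹ - (P + P⁻¹) = (Z - P) * (1 - Z⁻¹ * P⁻¹) := by
    linear_combination (-Z⁻¹) * hPPinv + P⁻¹ * hZinv
  have hZi1 : Z⁻¹ ≤ 1 := inv_le_one_of_one_le₀ (by linarith)
  have hZi0 : 0 < Z⁻¹ := inv_pos.2 hZ0
  have hPi0 : 0 < P⁻¹ := inv_pos.2 hPpos
  have hPi1 : P⁻¹ ≤ 0.15 := (inv_anti₀ (by norm_num) hP0).trans (by norm_num)
  have hZPi : Z⁻¹ * P⁻¹ ≤ 1 * 0.15 := mul_le_mul hZi1 hPi1 hPi0.le zero_le_one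
  have hfac0 : 0 < 1 - Z⁻¹ * P⁻¹ := by linarith
  have hZP : P < Z := by
    have h1 : 0 < (Z - P) * (1 - Z⁻¹ * P⁻¹) := by linarith
    have := (pos_iff_pos_of_mul_pos h1).2 hfac0
    linarith
  -- the quantitative part
  have hZP2 : Z⁻¹ ≤ P⁻¹ := inv_anti₀ hPpos hZP.le
  have hsP : s = P * ((1 - u ^ 2) * (1 - v ^ 2)) := by
    have h1 : X - u = X * (1 - u ^ 2) := by
      linear_combination u * hXu
    have h2 : Y - v = Y * (1 - v ^ 2) := by
      linear_combination v * hYv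
    rw [hs, h1, h2, hP]; ring
  have hu2 : u ^ 2 ≤ 0.149 := (pow_le_pow_left₀ hu0.le hu1 2).trans (by norm_num)
  have hv2 : v ^ 2 ≤ 0.149 := (pow_le_pow_left₀ hv0.le hv1 2).trans (by norm_num)
  have hs3 : 0.724 * P ≤ s := by
    rw [hsP]
    have : (0.851 : ℝ) * 0.851 ≤ (1 - u ^ 2) * (1 - v ^ 2) :=
      mul_le_mul (by linarith) (by linarith) (by norm_num) (by linarith)
    have h0 : (0.724 : ℝ) ≤ (1 - u ^ 2) * (1 - v ^ 2) := by linarith
    have := mul_le_mul_of_nonneg_left h0 hPpos.le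
    linarith
  have hmain : Z / P - 1 ≤ 1.42 * (P⁻¹) ^ 2 := by
    have h1 : (Z - P) * (1 - Z⁻¹ * P⁻¹) ≤ s⁻¹ := by rw [← hfac]; linarith
    have h2' : Z⁻¹ * P⁻¹ ≤ 0.1480 * 0.1480 := by
      have h3 : P⁻¹ ≤ 0.1480 := (inv_anti₀ (by norm_num) hP0).trans (by norm_num)
      exact mul_le_mul (hZP2.trans h3) h3 hPi0.le (by norm_num)
    have h2 : 0.977 ≤ 1 - Z⁻¹ * P⁻¹ := by norm_num at h2' ⊢; linarith
    have h3 : (Z - P) * 0.977 ≤ s⁻¹ := by
      refine le_trans ?_ h1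
      exact mul_le_mul_of_nonneg_left h2 (by linarith)
    have h4 : s⁻¹ ≤ (0.724 * P)⁻¹ := inv_anti₀ (by positivity) hs3
    have h5 : (0.724 * P)⁻¹ ≤ 1.382 * P⁻¹ := by
      rw [mul_inv]
      apply mul_le_mul_of_nonneg_right _ hPi0.le
      norm_num
    have h6 : Z / P - 1 = (Z - P) * P⁻¹ := by
      rw [div_eq_mul_inv]
      linear_combination hPPinv
    rw [h6]
    have h7 : Z - P ≤ 1.42 * P⁻¹ := by linarith
    calc (Z - P) * P⁻¹ ≤ (1.42 * P⁻¹) * P⁻¹ := mul_le_mul_of_nonneg_right h7 hPi0.le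
      _ = 1.42 * (P⁻¹) ^ 2 := by ring
  have hlx : lam x = Real.log X := rfl
  have hly : lam y = Real.log Y := rfl
  have hlz : lam z = Real.log Z := rfl
  have hlP : Real.log P = lam x + lam y := by
    rw [hP, Real.log_mul hX0.ne' hY0.ne', hlx, hly]
  have hlog : lam z - lam x - lam y ≤ 1.42 * (P⁻¹) ^ 2 := by
    have h1 : lam z - lam x - lam y = Real.log (Z / P) := by
      rw [Real.log_div hZ0.ne' hPpos.ne', hlP, hlz]; ring
    rw [h1]
    have h2 := Real.log_le_sub_one_of_pos (show 0 < Z / P by positivity)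
    linarith
  have he1 : Real.exp (-2 * (lam x + lam y)) = (P⁻¹) ^ 2 := by
    rw [← hlP, show (-2 : ℝ) * Real.log P = -Real.log P + -Real.log P by ring, Real.exp_add,
      Real.exp_neg, Real.exp_log hPpos]; ring
  have he2 : Real.exp (-2 * (lam x + lam z)) ≤ 0.148 * (P⁻¹) ^ 2 := by
    have h1 : Real.exp (-2 * (lam x + lam z)) = ((X * Z)⁻¹) ^ 2 := by
      have hXZ : 0 < X * Z := by positivity
      have h2 : lam x + lam z = Real.log (X * Z) := by
        rw [Real.log_mul hX0.ne' hZ0.ne', hlx, hlz]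
      rw [h2, show (-2 : ℝ) * Real.log (X * Z) = -Real.log (X * Z) + -Real.log (X * Z) by ring,
        Real.exp_add, Real.exp_neg, Real.exp_log hXZ]; ring
    have h2 : (X * Z)⁻¹ ≤ 0.3847 * P⁻¹ := by
      rw [mul_inv]
      exact mul_le_mul hu1 hZP2 hZi0.le (by norm_num)
    rw [h1]
    have h0 : 0 ≤ (X * Z)⁻¹ := by positivity
    calc ((X * Z)⁻¹) ^ 2 ≤ (0.3847 * P⁻¹) ^ 2 := pow_le_pow_left₀ h0 h2 2
      _ ≤ 0.148 * (P⁻¹) ^ 2 := by
          have : 0 ≤ (P⁻¹) ^ 2 := sq_nonneg _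
          rw [mul_pow]
          exact mul_le_mul_of_nonneg_right (by norm_num) this
  refine ⟨?_, ?_⟩
  · rw [← hlP, hlz]
    exact Real.log_lt_log hPpos hZP
  · rw [he1]
    have : 0 ≤ (P⁻¹) ^ 2 := sq_nonneg _
    linarith

/-! ### the Stern-Brocot path -/

lemma orb_inv {p q : List Bool} (h : Orb p q) : 1 ≤ p.length ∧ 1 ≤ q.length ∧
    (p.length : ℤ) * (q.count true : ℤ) - (q.length : ℤ) * (p.count true : ℤ) = 1 := by
  induction h with
  | base => simp
  | left _ ih =>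
    obtain ⟨h1, h2, h3⟩ := ih
    refine ⟨h1, by rw [List.length_append]; omega, ?_⟩
    rw [List.length_append, List.count_append]
    push_cast
    linear_combination h3
  | right _ ih =>
    obtain ⟨h1, h2, h3⟩ := ih
    refine ⟨by rw [List.length_append]; omega, h2, ?_⟩
    rw [List.length_append, List.count_append]
    push_cast
    linear_combination h3

lemma orb_slopes {p q : List Bool} (h : Orb p q) :
    slope q - slope p = 1 / ((p.length : ℝ) * q.length) := by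
  obtain ⟨h1, h2, h3⟩ := orb_inv h
  have h4 : (p.length : ℝ) * (q.count true : ℝ) - (q.length : ℝ) * (p.count true : ℝ) = 1 := by
    exact_mod_cast h3
  have hp : (0 : ℝ) < p.length := by exact_mod_cast h1
  have hq : (0 : ℝ) < q.length := by exact_mod_cast h2
  unfold K1H25.JS.slope
  rw [div_sub_div _ _ hq.ne' hp.ne', div_eq_div_iff (by positivity) (by positivity)]
  linear_combination ((p.length : ℝ) * q.length) * h4

lemma orb_step {γ : ℝ} (hγ : Irrational γ) (h0 : 0 < γ) (h1 : γ < 1) (N : ℕ) :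
    ∃ p q : List Bool, Orb p q ∧ N ≤ p.length + q.length ∧ slope p < γ ∧ γ < slope q := by
  induction N with
  | zero => exact ⟨[false], [true], Orb.base, by simp, by simpa [K1H25.JS.slope] using h0, by simpa [K1H25.JS.slope] using h1⟩
  | succ N ih =>
    obtain ⟨p, q, hO, hN, hp, hq⟩ := ih
    obtain ⟨l1, l2, _⟩ := orb_inv hO
    have hne : slope (p ++ q) ≠ γ := by
      intro h
      apply hγ
      refine ⟨(((p ++ q).count true : ℕ) : ℚ) / (((p ++ q).length : ℕ) : ℚ), ?_⟩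
      rw [← h]
      unfold K1H25.JS.slope
      push_cast
      rfl
    rcases lt_or_gt_of_ne hne with h | h
    · exact ⟨p ++ q, q, hO.right, by rw [List.length_append]; omega, h, hq⟩
    · exact ⟨p, p ++ q, hO.left, by rw [List.length_append]; omega, hp, h⟩

theorem t_PATH : S_PATH := by
  intro γ hγ h0 h1 n
  -- a bound for the inverse distances to fractions with a small denominator
  obtain ⟨M, hM⟩ : ∃ M : ℝ, ∀ a b : ℕ, a ≤ n → b ≤ n → |γ - (a : ℝ) / (b : ℝ)|⁻¹ ≤ M := by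
    obtain ⟨M, hM⟩ := ((Finset.range (n + 1) ×ˢ Finset.range (n + 1)).image
      (fun i : ℕ × ℕ => |γ - (i.1 : ℝ) / (i.2 : ℝ)|⁻¹)).exists_le
    refine ⟨M, fun a b ha hb => hM _ ?_⟩
    rw [Finset.mem_image]
    exact ⟨(a, b), by rw [Finset.mem_product, Finset.mem_range, Finset.mem_range]; constructor <;> simp <;> omega, rfl⟩
  obtain ⟨p, q, hO, hN, hp, hq⟩ := orb_step hγ h0 h1 (n + ⌈M⌉₊ + 1)
  obtain ⟨l1, l2, _⟩ := orb_inv hO
  have hs := orb_slopes hO
  have hp0 : (0 : ℝ) < p.length := by exact_mod_cast l1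
  have hq0 : (0 : ℝ) < q.length := by exact_mod_cast l2
  have hp1 : (1 : ℝ) ≤ p.length := by exact_mod_cast l1
  have hq1 : (1 : ℝ) ≤ q.length := by exact_mod_cast l2
  have hceil : M ≤ (⌈M⌉₊ : ℝ) := Nat.le_ceil M
  refine ⟨p, q, hO, ?_, ?_, hp, hq⟩
  · by_contra hcon
    push Not at hcon
    have h2 : ⌈M⌉₊ + 1 ≤ q.length := by omega
    have h3 : (⌈M⌉₊ : ℝ) + 1 ≤ q.length := by exact_mod_cast h2
    have h4 : 0 < γ - slope p := by linarith
    have h5 : γ - slope p < 1 / q.length := by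
      have h6 : 1 / ((p.length : ℝ) * q.length) ≤ 1 / q.length :=
        one_div_le_one_div_of_le hq0 (by nlinarith)
      linarith
    have h6 := hM (p.count true) p.length ((List.count_le_length).trans hcon.le) hcon.le
    have h7 : |γ - ((p.count true : ℕ) : ℝ) / (p.length : ℝ)| = γ - slope p := abs_of_pos h4
    rw [h7] at h6
    have h8 : (q.length : ℝ) < (γ - slope p)⁻¹ := by
      rw [lt_inv_comm₀ hq0 h4, ← one_div]; exact h5
    linarith
  · by_contra hcon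
    push Not at hcon
    have h2 : ⌈M⌉₊ + 1 ≤ p.length := by omega
    have h3 : (⌈M⌉₊ : ℝ) + 1 ≤ p.length := by exact_mod_cast h2
    have h4 : 0 < slope q - γ := by linarith
    have h5 : slope q - γ < 1 / p.length := by
      have h6 : 1 / ((p.length : ℝ) * q.length) ≤ 1 / p.length :=
        one_div_le_one_div_of_le hp0 (by nlinarith)
      linarith
    have h6 := hM (q.count true) q.length ((List.count_le_length).trans hcon.le) hcon.le
    have h7 : |γ - ((q.count true : ℕ) : ℝ) / (q.length : ℝ)| = slope q - γ := by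
      rw [abs_sub_comm]; exact abs_of_pos h4
    rw [h7] at h6
    have h8 : (p.length : ℝ) < (slope q - γ)⁻¹ := by
      rw [lt_inv_comm₀ hp0 h4, ← one_div]; exact h5
    linarith

end Pool.Agent.K1H65.JS
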